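import Pool.Agent.Helper10.AB.GoalsF5
import Pool.Agent.Helper58.AB.ATL
import Pool.Agent.Helper98.AB.XI

/-!
# Project AB (MP_1ef41b_an), module FM, packet MH3: holomorphy of the torus modes in `w`
-/

set_option autoImplicit false

open MeasureTheory Set Filter Topology
open scoped ContDiff

noncomputable section

namespace Pool.Agent.Helper74.AB.MH3

open Pool.Agent.Helper24.AB Pool.Agent.Helper10.AB
open Pool.Agent.Helper15.AB (S_XI S_ATL XiI)

/-- `Omt` is open. -/
theorem omt_open {a A : ℝ} {s : ℝ → ℝ} {p : ℂ → ℝ} (hs : IsProfile a A s)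
    (hp : ContDiffOn ℝ ∞ p (strip (3 * a / 2))) : IsOpen (Omt a A s p) := by
  obtain ⟨hX1, hX2, hX3, hX4, hX5, hX6, hX7, hX8⟩ :=
    Pool.Agent.Helper98.AB.xi Pool.Agent.Helper58.AB.atl a A s p hs hp
  have hreopen : IsOpen {P : V4 | |(P 3).re| < 3 * a / 2} := by
    apply isOpen_lt _ continuous_const
    exact (Complex.continuous_re.comp (continuous_apply 3)).abs
  have hsum : Continuous fun q : (Fin 4 → ℝ) × (Fin 4 → ℝ) => ∑ i, q.1 i ^ 2 := by
    apply continuous_finset_sum
    intro i _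
    exact ((continuous_apply i).comp continuous_fst).pow 2
  have hOmt : Omt a A s p = {P : V4 | |(P 3).re| < 3 * a / 2} ∩
      XiI a A s p ⁻¹' {q | (∑ i, q.1 i ^ 2) < a ^ 2} := by
    ext P
    constructor
    · intro hP
      refine ⟨hP.1, ?_⟩
      have h := hX7 (XiI a A s p P)
      rw [hX4] at h
      exact h.1 hP
    · rintro ⟨_, h2⟩
      have h := hX7 (XiI a A s p P)
      rw [hX4] at h
      exact h.2 h2
  rw [hOmt]
  exact hX2.continuousOn.isOpen_inter_preimage hreopen (isOpen_lt hsum continuous_const)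

theorem pz_mem {a A : ℝ} {s : ℝ → ℝ} {p : ℂ → ℝ} (X θ : Fin 3 → ℝ) (w : ℂ) :
    Pz X θ w ∈ Omt a A s p ↔ X ∈ Gw a A s p w := by
  simp [Omt, Gw, Pz, rfun, ypf, ymf, xp, xm, x0]

theorem pz_cont (X : Fin 3 → ℝ) : Continuous fun q : ℂ × (Fin 3 → ℝ) => Pz X q.2 q.1 := by
  have h0 : ∀ i : Fin 3, Continuous fun q : ℂ × (Fin 3 → ℝ) => (⟨X i, q.2 i⟩ : ℂ) := by
    intro i
    have : (fun q : ℂ × (Fin 3 → ℝ) => (⟨X i, q.2 i⟩ : ℂ)) = fun q => (X i : ℂ) + (q.2 i : ℂ) * Complex.I := by
      funext q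
      apply Complex.ext <;> simp
    rw [this]
    exact continuous_const.add ((Complex.continuous_ofReal.comp
      ((continuous_apply i).comp continuous_snd)).mul continuous_const)
  refine continuous_pi fun i => ?_
  fin_cases i
  · exact h0 0
  · exact h0 1
  · exact h0 2
  · exact continuous_fst

theorem pz_hasDeriv (X θ : Fin 3 → ℝ) (w : ℂ) :
    HasDerivAt (fun w => Pz X θ w) ![0, 0, 0, 1] w := by
  rw [hasDerivAt_pi]
  intro i
  fin_cases i
  · exact hasDerivAt_const _ _
  · exact hasDerivAt_const _ _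
  · exact hasDerivAt_const _ _
  · exact hasDerivAt_id _

theorem jd_cont (J : Fin 3 → ℤ) : Continuous fun θ : Fin 3 → ℝ => Jd J θ := by
  unfold Jd
  fun_prop

/-- general fact -/
theorem holo_integral {α : Type} [MeasurableSpace α] {μ : Measure α} [IsFiniteMeasure μ]
    {F : ℂ → α → ℂ} {w₀ : ℂ} {ρ M : ℝ} (hρ : 0 < ρ)
    (hm : ∀ w ∈ Metric.closedBall w₀ ρ, AEStronglyMeasurable (F w) μ)
    (hd : ∀ᵐ θ ∂μ, ∀ w ∈ Metric.closedBall w₀ ρ, DifferentiableAt ℂ (fun w => F w θ) w)
    (hb : ∀ᵐ θ ∂μ, ∀ w ∈ Metric.closedBall w₀ ρ, ‖F w θ‖ ≤ M) :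
    DifferentiableAt ℂ (fun w => ∫ θ, F w θ ∂μ) w₀ := by
  have hw₀ : w₀ ∈ Metric.closedBall w₀ ρ := Metric.mem_closedBall_self hρ.le
  set F' : ℂ → α → ℂ := fun w θ => deriv (fun w => F w θ) w with hF'
  have hmeas : AEStronglyMeasurable (F' w₀) μ := by
    -- difference quotients
    set e : ℕ → ℂ := fun n => ((ρ / (n + 1) : ℝ) : ℂ) with he
    have he0 : ∀ n, e n ≠ 0 := by
      intro n
      simp only [he, ne_eq, Complex.ofReal_eq_zero]
      positivity
    have heρ : ∀ n, w₀ + e n ∈ Metric.closedBall w₀ ρ := by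
      intro n
      rw [Metric.mem_closedBall, dist_eq_norm, add_sub_cancel_left]
      simp only [he]
      rw [Complex.norm_real, Real.norm_of_nonneg (by positivity)]
      rw [div_le_iff₀ (by positivity)]
      nlinarith [Nat.cast_nonneg (α := ℝ) n]
    have het : Tendsto e atTop (𝓝[≠] 0) := by
      rw [tendsto_nhdsWithin_iff]
      refine ⟨?_, Eventually.of_forall fun n => he0 n⟩
      have h1 : Tendsto (fun n : ℕ => ρ / ((n : ℝ) + 1)) atTop (𝓝 0) := by
        have h3 := (tendsto_one_div_add_atTop_nhds_zero_nat (𝕜 := ℝ)).const_mul ρ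
        rw [mul_zero] at h3
        refine h3.congr fun n => ?_
        ring
      have h2 := (Complex.continuous_ofReal.tendsto 0).comp h1
      rw [Complex.ofReal_zero] at h2
      exact h2
    refine aestronglyMeasurable_of_tendsto_ae atTop
      (f := fun n θ => (e n)⁻¹ • (F (w₀ + e n) θ - F w₀ θ)) (fun n => ?_) ?_
    · exact ((hm _ (heρ n)).sub (hm _ hw₀)).const_smul (e n)⁻¹
    · filter_upwards [hd] with θ hθ
      have h1 := (hθ w₀ hw₀).hasDerivAt.tendsto_slope_zero
      exact h1.comp het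
  have key := hasDerivAt_integral_of_dominated_loc_of_deriv_le (μ := μ) (𝕜 := ℂ) (x₀ := w₀)
    (s := Metric.ball w₀ (ρ / 2)) (F := F) (F' := F') (bound := fun _ => M / (ρ / 2))
    (Metric.ball_mem_nhds _ (by positivity)) ?_ ?_ hmeas ?_ (integrable_const _) ?_
  · exact key.2.differentiableAt
  · filter_upwards [Metric.closedBall_mem_nhds w₀ hρ] with w hw
    exact hm w hw
  · refine Integrable.mono' (integrable_const M) (hm w₀ hw₀) ?_
    filter_upwards [hb] with θ hθ
    exact hθ w₀ hw₀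
  · filter_upwards [hb, hd] with θ hθ hdθ w hw
    have hsub : Metric.closedBall w (ρ / 2) ⊆ Metric.closedBall w₀ ρ := by
      intro w' hw'
      rw [Metric.mem_closedBall] at hw' ⊢
      rw [Metric.mem_ball] at hw
      calc dist w' w₀ ≤ dist w' w + dist w w₀ := dist_triangle _ _ _
        _ ≤ ρ / 2 + ρ / 2 := by linarith
        _ = ρ := by ring
    refine Complex.norm_deriv_le_of_forall_mem_sphere_norm_le (by positivity) ?_ ?_
    · refine DifferentiableOn.diffContOnCl ?_
      intro w' hw'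
      have h1 : w' ∈ Metric.closedBall w (ρ / 2) := Metric.closure_ball_subset_closedBall hw'
      exact (hdθ w' (hsub h1)).differentiableWithinAt
    · intro w' hw'
      exact hθ w' (hsub (Metric.sphere_subset_closedBall hw'))
  · filter_upwards [hd] with θ hθ w hw
    have hw' : w ∈ Metric.closedBall w₀ ρ := by
      rw [Metric.mem_ball] at hw
      rw [Metric.mem_closedBall]
      linarith
    exact (hθ w hw').hasDerivAt

theorem t3_sub : T3 ⊆ Set.pi Set.univ fun _ : Fin 3 => Icc 0 (2 * Real.pi) := by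
  intro θ hθ i hi
  exact Ico_subset_Icc_self (hθ i hi)

/-- PACKET MH3. -/
theorem mh3 : S_MH3 := by
  intro a A δ₀ ρ₀ s p B hD h hh hG J w₀ X hw₀ hX
  have hO : IsOpen (Omt a A s p) := omt_open hD.prof hD.pot.smooth
  have hev : ∀ᶠ w in 𝓝 w₀, X ∈ Gw a A s p w := by
    have h1 : Continuous fun w : ℂ => Pz X 0 w :=
      (pz_cont X).comp (continuous_id.prodMk continuous_const)
    have h2 : IsOpen {w : ℂ | Pz X 0 w ∈ Omt a A s p} := hO.preimage h1
    have h3 : w₀ ∈ {w : ℂ | Pz X 0 w ∈ Omt a A s p} := (pz_mem X 0 w₀).mpr hX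
    filter_upwards [h2.mem_nhds h3] with w hw
    exact (pz_mem X 0 w).mp hw
  refine ⟨hev, ?_⟩
  obtain ⟨ρ, hρ, hball⟩ := Metric.eventually_nhds_iff_ball.mp hev
  -- closed ball
  set r : ℝ := ρ / 2 with hr
  have hr0 : 0 < r := by positivity
  have hmem : ∀ w ∈ Metric.closedBall w₀ r, ∀ θ, Pz X θ w ∈ Omt a A s p := by
    intro w hw θ
    refine (pz_mem X θ w).mpr (hball w ?_)
    rw [Metric.mem_closedBall] at hw
    rw [Metric.mem_ball]
    linarith
  set F : ℂ → (Fin 3 → ℝ) → ℂ := fun w θ =>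
    h (Pz X θ w) * Complex.exp (-(Complex.I * (Jd J θ : ℝ))) with hF
  have hFc : ContinuousOn (fun q : ℂ × (Fin 3 → ℝ) => F q.1 q.2)
      (Metric.closedBall w₀ r ×ˢ Set.univ) := by
    refine ContinuousOn.mul ?_ ?_
    · exact hh.continuousOn.comp (pz_cont X).continuousOn (fun q hq => hmem q.1 hq.1 q.2)
    · refine Continuous.continuousOn ?_
      have := (jd_cont J).comp (continuous_snd (X := ℂ) (Y := Fin 3 → ℝ))
      exact Complex.continuous_exp.comp ((continuous_const.mul
        (Complex.continuous_ofReal.comp this)).neg)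
  set K : Set (Fin 3 → ℝ) := Set.pi Set.univ fun _ : Fin 3 => Icc 0 (2 * Real.pi) with hK
  have hKc : IsCompact K := isCompact_univ_pi fun _ => isCompact_Icc
  have hT : MeasurableSet T3 := MeasurableSet.univ_pi fun _ => measurableSet_Ico
  obtain ⟨M, hM⟩ := ((isCompact_closedBall w₀ r).prod hKc).exists_bound_of_continuousOn
    (hFc.mono (Set.prod_mono subset_rfl (subset_univ _)))
  have : IsFiniteMeasure (volume.restrict T3) := by
    refine ⟨?_⟩
    rw [Measure.restrict_apply_univ]
    exact lt_of_le_of_lt (measure_mono t3_sub) hKc.measure_lt_top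
  have hint : DifferentiableAt ℂ (fun w => ∫ θ in T3, F w θ) w₀ := by
    refine holo_integral (M := M) hr0 ?_ ?_ ?_
    · intro w hw
      have h1 : ContinuousOn (fun θ => F w θ) Set.univ := by
        refine hFc.comp (continuous_const.prodMk continuous_id).continuousOn ?_
        intro θ _
        exact ⟨hw, mem_univ _⟩
      exact (continuousOn_univ.mp h1).aestronglyMeasurable
    · refine Eventually.of_forall fun θ w hw => ?_
      have h1 : DifferentiableAt ℂ h (Pz X θ w) := hh.differentiableAt (hO.mem_nhds (hmem w hw θ))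
      exact (h1.comp w (pz_hasDeriv X θ w).differentiableAt).mul_const _
    · filter_upwards [ae_restrict_mem hT] with θ hθ w hw
      exact hM (w, θ) ⟨hw, t3_sub hθ⟩
  have heq : (fun w => mh h J X w) = fun w => (Real.exp (-(Jd J X)) : ℂ) *
      ((((2 * Real.pi) ^ 3)⁻¹ : ℝ) * ∫ θ in T3, F w θ) := by
    funext w
    rfl
  rw [heq]
  exact (hint.const_mul _).const_mul _

end Pool.Agent.Helper74.AB.MH3
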