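import Pool.Agent.Helper24.AB.PHI.Goals

/-! # Project AB, packet VAP -/

open MeasureTheory Set Filter Topology
open scoped ContDiff

noncomputable section

namespace Pool.Agent.Helper74.AB

open Pool.Agent.Helper24.AB

/-! ### Calculus of `lapC` -/

theorem contDiffOn_dS {U : Set ℂ} (hU : IsOpen U) {f : ℂ → ℝ} (hf : ContDiffOn ℝ ∞ f U) :
    ContDiffOn ℝ ∞ (dS f) U :=
  ((hf.fderiv_of_isOpen hU (m := ∞) (by norm_num)).clm_apply contDiffOn_const)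

theorem contDiffOn_dT {U : Set ℂ} (hU : IsOpen U) {f : ℂ → ℝ} (hf : ContDiffOn ℝ ∞ f U) :
    ContDiffOn ℝ ∞ (dT f) U :=
  ((hf.fderiv_of_isOpen hU (m := ∞) (by norm_num)).clm_apply contDiffOn_const)

theorem diffAt_of {U : Set ℂ} (hU : IsOpen U) {f : ℂ → ℝ} (hf : ContDiffOn ℝ ∞ f U) {w : ℂ}
    (hw : w ∈ U) : DifferentiableAt ℝ f w :=
  (hf.contDiffAt (hU.mem_nhds hw)).differentiableAt (by norm_num)

theorem dS_add {U : Set ℂ} (hU : IsOpen U) {f g : ℂ → ℝ} (hf : ContDiffOn ℝ ∞ f U)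
    (hg : ContDiffOn ℝ ∞ g U) {w : ℂ} (hw : w ∈ U) :
    dS (fun x => f x + g x) w = dS f w + dS g w := by
  unfold dS
  have := fderiv_fun_add (diffAt_of hU hf hw) (diffAt_of hU hg hw)
  rw [this]
  rfl

theorem dT_add {U : Set ℂ} (hU : IsOpen U) {f g : ℂ → ℝ} (hf : ContDiffOn ℝ ∞ f U)
    (hg : ContDiffOn ℝ ∞ g U) {w : ℂ} (hw : w ∈ U) :
    dT (fun x => f x + g x) w = dT f w + dT g w := by
  unfold dT
  have := fderiv_fun_add (diffAt_of hU hf hw) (diffAt_of hU hg hw)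
  rw [this]
  rfl

theorem lapC_add {U : Set ℂ} (hU : IsOpen U) {f g : ℂ → ℝ} (hf : ContDiffOn ℝ ∞ f U)
    (hg : ContDiffOn ℝ ∞ g U) {w : ℂ} (hw : w ∈ U) :
    lapC (fun x => f x + g x) w = lapC f w + lapC g w := by
  have e1 : dS (fun x => f x + g x) =ᶠ[𝓝 w] fun x => dS f x + dS g x := by
    filter_upwards [hU.mem_nhds hw] with x hx using dS_add hU hf hg hx
  have e2 : dT (fun x => f x + g x) =ᶠ[𝓝 w] fun x => dT f x + dT g x := by
    filter_upwards [hU.mem_nhds hw] with x hx using dT_add hU hf hg hx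
  have e3 : dS (dS (fun x => f x + g x)) w = dS (fun x => dS f x + dS g x) w := by
    show fderiv ℝ (dS (fun x => f x + g x)) w 1 = fderiv ℝ (fun x => dS f x + dS g x) w 1
    rw [e1.fderiv_eq]
  have e4 : dT (dT (fun x => f x + g x)) w = dT (fun x => dT f x + dT g x) w := by
    show fderiv ℝ (dT (fun x => f x + g x)) w Complex.I =
      fderiv ℝ (fun x => dT f x + dT g x) w Complex.I
    rw [e2.fderiv_eq]
  unfold lapC
  rw [e3, e4, dS_add hU (contDiffOn_dS hU hf) (contDiffOn_dS hU hg) hw,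
    dT_add hU (contDiffOn_dT hU hf) (contDiffOn_dT hU hg) hw]
  ring

theorem lin_fderiv (A α : ℝ) (w : ℂ) :
    HasFDerivAt (fun w : ℂ => A * uf α w.im) ((kap * (A * uf α w.im)) • Complex.imCLM) w := by
  have h1 : HasDerivAt (fun t : ℝ => A * uf α t) (kap * (A * uf α w.im)) w.im := by
    have h2 : HasDerivAt (fun t : ℝ => kap * t) kap w.im := by
      simpa using (hasDerivAt_id w.im).const_mul kap
    have h3 := ((h2.exp).const_mul α).const_mul A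
    refine h3.congr_deriv ?_
    unfold uf
    ring
  have h4 : HasFDerivAt (fun w : ℂ => w.im) (Complex.imCLM : ℂ →L[ℝ] ℝ) w :=
    Complex.imCLM.hasFDerivAt
  exact h1.comp_hasFDerivAt w h4

theorem lin_dS (A α : ℝ) : dS (fun w : ℂ => A * uf α w.im) = fun _ => 0 := by
  funext w
  unfold dS
  rw [(lin_fderiv A α w).fderiv]
  simp

theorem lin_dT (A α : ℝ) : dT (fun w : ℂ => A * uf α w.im) = fun w => (kap * A) * uf α w.im := by
  funext w
  unfold dT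
  rw [(lin_fderiv A α w).fderiv]
  simp
  ring

theorem lin_lap (A α : ℝ) (w : ℂ) :
    lapC (fun w : ℂ => A * uf α w.im) w = kap ^ 2 * A * uf α w.im := by
  unfold lapC
  rw [lin_dS, lin_dT, lin_dT]
  have : dS (fun _ : ℂ => (0 : ℝ)) w = 0 := by
    unfold dS
    simp
  rw [this]
  ring

theorem lin_smooth (A α : ℝ) (U : Set ℂ) : ContDiffOn ℝ ∞ (fun w : ℂ => A * uf α w.im) U := by
  have h1 : ContDiff ℝ ∞ (fun w : ℂ => w.im) := Complex.imCLM.contDiff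
  unfold uf
  have h2 : ContDiff ℝ ∞ (fun w : ℂ => A * (α * Real.exp (kap * w.im))) :=
    contDiff_const.mul (contDiff_const.mul (Real.contDiff_exp.comp (contDiff_const.mul h1)))
  exact h2.contDiffOn

theorem strip_open (a : ℝ) : IsOpen (strip a) := by
  have h1 : Continuous fun w : ℂ => |w.re| := Complex.continuous_re.abs
  exact isOpen_lt h1 continuous_const

theorem F_smooth {a A : ℝ} {s : ℝ → ℝ} (hs : IsProfile a A s) (α α' l : ℝ) :
    ContDiffOn ℝ ∞ (Ff a A s α α' l) (strip a) := by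
  have hre : ContDiff ℝ ∞ (fun w : ℂ => w.re) := Complex.reCLM.contDiff
  have him : ContDiff ℝ ∞ (fun w : ℂ => w.im) := Complex.imCLM.contDiff
  have h1 : ContDiffOn ℝ ∞ (fun w : ℂ => s w.re) (strip a) := by
    refine hs.smooth.comp hre.contDiffOn (fun w hw => ?_)
    exact abs_lt.1 hw
  have h2 : ContDiff ℝ ∞ (fun w : ℂ => uf α w.im) :=
    contDiff_const.mul (Real.contDiff_exp.comp (contDiff_const.mul him))
  have h3 : ContDiff ℝ ∞ (fun w : ℂ => gf α' l w.im) :=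
    (((contDiff_const.mul (Real.contDiff_exp.comp (contDiff_const.mul him).neg)).pow 2)).add
      contDiff_const
  have h4 : ContDiff ℝ ∞ (fun w : ℂ => 4 * A ^ 2 * (a ^ 2 - w.re ^ 2)) :=
    contDiff_const.mul (contDiff_const.sub (hre.pow 2))
  exact ((h1.pow 2).mul (h2.pow 2).contDiffOn).add (h4.contDiffOn.mul h3.contDiffOn)

theorem H0_lap {a A : ℝ} {s : ℝ → ℝ} (hs : IsProfile a A s) (α α' l : ℝ)
    (hpos : ∀ w ∈ strip a, 0 < Ff a A s α α' l w) {w : ℂ} (hw : w ∈ strip a) :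
    lapC (H0f a A s α α' l) w = kap ^ 2 * A * uf α w.im +
      lapC (fun w => Real.sqrt (Ff a A s α α' l w)) w := by
  have h1 : ContDiffOn ℝ ∞ (fun w => Real.sqrt (Ff a A s α α' l w)) (strip a) :=
    (F_smooth hs α α' l).sqrt (fun w hw => (hpos w hw).ne')
  have h2 := lapC_add (strip_open a) (lin_smooth A α (strip a)) h1 hw
  rw [lin_lap] at h2
  exact h2

/-! ### The estimate -/

theorem core1 {a A s s1 s2 u g v F q L e σ K s0 S1 S2 : ℝ} (hA : 0 < A)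
    (ha : 0 < a) (hs0 : 0 < s0) (hs : s0 ≤ s)
    (hs2A : s ≤ 2 * A) (h1 : |s1| ≤ S1) (h2 : |s2| ≤ S2) (hu : 1 + g ≤ u) (hg : 0 ≤ g)
    (hv : v ^ 2 ≤ g) (he0 : 0 < e) (he : e ≤ a ^ 2) (hσ : |σ| ≤ a) (hK : 0 ≤ K)
    (hF : F = s ^ 2 * u ^ 2 + 4 * A ^ 2 * e * g) (hq : 0 < q) (hq2 : q ^ 2 = F)
    (hL : L * (4 * F * q) =
      4 * s ^ 3 * s2 * u ^ 4 +
      4 * A ^ 2 * u ^ 2 * g * (-4 * s ^ 2 + 4 * e * (s1 ^ 2 + s * s2) + 8 * s * s1 * σ) -
      4 * (4 * A ^ 2) ^ 2 * a ^ 2 * g ^ 2 + 4 * K * s ^ 4 * u ^ 4 +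
      8 * K * s ^ 2 * (4 * A ^ 2 * e) * u ^ 2 * (g + 2 * v ^ 2) +
      4 * K * (4 * A ^ 2 * e) ^ 2 * (2 * g * v ^ 2 - v ^ 4)) :
    |L - (s2 + K * s) * u| ≤
      ((4 * A ^ 2) * (4 * (2 * A) ^ 2 + 4 * a ^ 2 * (S1 ^ 2 + 2 * A * S2) + 8 * (2 * A) * S1 * a) +
        4 * (4 * A ^ 2) ^ 2 * a ^ 2 + 24 * K * (2 * A) ^ 2 * (4 * A ^ 2 * a ^ 2) +
        12 * K * (4 * A ^ 2 * a ^ 2) ^ 2) / (4 * s0 ^ 3) +
      3 * (S2 + 2 * K * A) * (4 * A ^ 2 * a ^ 2) / s0 ^ 2 := by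
  have hspos : 0 < s := lt_of_lt_of_le hs0 hs
  have hupos : 0 < u := by linarith
  have hS1 : 0 ≤ S1 := (abs_nonneg _).trans h1
  have hS2 : 0 ≤ S2 := (abs_nonneg _).trans h2
  have hgu : g ≤ u := by linarith
  have hgg : g ^ 2 ≤ u ^ 2 * g := by
    have h3 : g ≤ u ^ 2 := by nlinarith
    nlinarith
  have hv0 : 0 ≤ v ^ 2 := sq_nonneg v
  -- the rest
  set T1 := 4 * A ^ 2 * u ^ 2 * g * (-4 * s ^ 2 + 4 * e * (s1 ^ 2 + s * s2) + 8 * s * s1 * σ)
    with hT1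
  set T2 := 4 * (4 * A ^ 2) ^ 2 * a ^ 2 * g ^ 2 with hT2
  set T3 := 8 * K * s ^ 2 * (4 * A ^ 2 * e) * u ^ 2 * (g + 2 * v ^ 2) with hT3
  set T4 := 4 * K * (4 * A ^ 2 * e) ^ 2 * (2 * g * v ^ 2 - v ^ 4) with hT4
  set M1 := 4 * (2 * A) ^ 2 + 4 * a ^ 2 * (S1 ^ 2 + 2 * A * S2) + 8 * (2 * A) * S1 * a with hM1
  have hs4 : s ^ 2 ≤ (2 * A) ^ 2 := pow_le_pow_left₀ hspos.le hs2A 2
  have b1 : |T1| ≤ 4 * A ^ 2 * M1 * (u ^ 2 * g) := by
    have c1 : |-4 * s ^ 2 + 4 * e * (s1 ^ 2 + s * s2) + 8 * s * s1 * σ| ≤ M1 := by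
      have d1 : |-4 * s ^ 2| ≤ 4 * (2 * A) ^ 2 := by
        rw [abs_mul, abs_of_nonneg (sq_nonneg s)]
        have : |(-4 : ℝ)| = 4 := by norm_num
        rw [this]
        linarith
      have d2 : |4 * e * (s1 ^ 2 + s * s2)| ≤ 4 * a ^ 2 * (S1 ^ 2 + 2 * A * S2) := by
        rw [abs_mul, abs_of_pos (by positivity : 0 < 4 * e)]
        have d3 : |s1 ^ 2 + s * s2| ≤ S1 ^ 2 + 2 * A * S2 := by
          refine (abs_add_le _ _).trans (add_le_add ?_ ?_)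
          · rw [abs_pow]
            exact pow_le_pow_left₀ (abs_nonneg _) h1 2
          · rw [abs_mul, abs_of_pos hspos]
            exact mul_le_mul hs2A h2 (abs_nonneg _) (by positivity)
        exact mul_le_mul (by linarith) d3 (abs_nonneg _) (by positivity)
      have d4 : |8 * s * s1 * σ| ≤ 8 * (2 * A) * S1 * a := by
        rw [abs_mul, abs_mul, abs_of_pos (by positivity : 0 < 8 * s)]
        have d5 : 8 * s * |s1| ≤ 8 * (2 * A) * S1 :=
          mul_le_mul (by linarith) h1 (abs_nonneg _) (by positivity)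
        exact mul_le_mul d5 hσ (abs_nonneg _) (by positivity)
      refine (abs_add_le _ _).trans ?_
      have d6 := abs_add_le (-4 * s ^ 2) (4 * e * (s1 ^ 2 + s * s2))
      linarith
    rw [hT1, abs_mul, abs_of_nonneg (by positivity : 0 ≤ 4 * A ^ 2 * u ^ 2 * g)]
    calc 4 * A ^ 2 * u ^ 2 * g * |-4 * s ^ 2 + 4 * e * (s1 ^ 2 + s * s2) + 8 * s * s1 * σ|
        ≤ 4 * A ^ 2 * u ^ 2 * g * M1 := mul_le_mul_of_nonneg_left c1 (by positivity)
      _ = 4 * A ^ 2 * M1 * (u ^ 2 * g) := by ring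
  have b2 : |T2| ≤ 4 * (4 * A ^ 2) ^ 2 * a ^ 2 * (u ^ 2 * g) := by
    rw [hT2, abs_of_nonneg (by positivity)]
    exact mul_le_mul_of_nonneg_left hgg (by positivity)
  have b3 : |T3| ≤ 24 * K * (2 * A) ^ 2 * (4 * A ^ 2 * a ^ 2) * (u ^ 2 * g) := by
    rw [hT3, abs_of_nonneg (by positivity)]
    have c1 : g + 2 * v ^ 2 ≤ 3 * g := by linarith
    calc 8 * K * s ^ 2 * (4 * A ^ 2 * e) * u ^ 2 * (g + 2 * v ^ 2)
        ≤ 8 * K * s ^ 2 * (4 * A ^ 2 * e) * u ^ 2 * (3 * g) :=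
          mul_le_mul_of_nonneg_left c1 (by positivity)
      _ ≤ 8 * K * (2 * A) ^ 2 * (4 * A ^ 2 * a ^ 2) * u ^ 2 * (3 * g) := by
          gcongr
      _ = 24 * K * (2 * A) ^ 2 * (4 * A ^ 2 * a ^ 2) * (u ^ 2 * g) := by ring
  have b4 : |T4| ≤ 12 * K * (4 * A ^ 2 * a ^ 2) ^ 2 * (u ^ 2 * g) := by
    have c1 : |2 * g * v ^ 2 - v ^ 4| ≤ 3 * g ^ 2 := by
      have c2 : g * v ^ 2 ≤ g ^ 2 := by nlinarith
      have c3 : v ^ 4 ≤ g ^ 2 := by
        have : v ^ 4 = v ^ 2 * v ^ 2 := by ring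
        rw [this, sq g]
        exact mul_le_mul hv hv hv0 hg
      have c4 : 0 ≤ v ^ 4 := by positivity
      have c5 : 0 ≤ g * v ^ 2 := by positivity
      rw [abs_le]
      constructor <;> nlinarith
    rw [hT4, abs_mul, abs_of_nonneg (by positivity : 0 ≤ 4 * K * (4 * A ^ 2 * e) ^ 2)]
    calc 4 * K * (4 * A ^ 2 * e) ^ 2 * |2 * g * v ^ 2 - v ^ 4|
        ≤ 4 * K * (4 * A ^ 2 * e) ^ 2 * (3 * g ^ 2) := mul_le_mul_of_nonneg_left c1 (by positivity)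
      _ ≤ 4 * K * (4 * A ^ 2 * a ^ 2) ^ 2 * (3 * (u ^ 2 * g)) := by gcongr
      _ = 12 * K * (4 * A ^ 2 * a ^ 2) ^ 2 * (u ^ 2 * g) := by ring
  set R1 := (4 * A ^ 2) * M1 + 4 * (4 * A ^ 2) ^ 2 * a ^ 2 +
    24 * K * (2 * A) ^ 2 * (4 * A ^ 2 * a ^ 2) + 12 * K * (4 * A ^ 2 * a ^ 2) ^ 2 with hR1
  have hR10 : 0 ≤ R1 := by positivity
  have bR : |T1 - T2 + T3 + T4| ≤ R1 * (u ^ 2 * g) := by
    have e1 := abs_add_le (T1 - T2 + T3) T4
    have e2 := abs_add_le (T1 - T2) T3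
    have e3 := abs_sub T1 T2
    have e4 : R1 * (u ^ 2 * g) = 4 * A ^ 2 * M1 * (u ^ 2 * g) +
        4 * (4 * A ^ 2) ^ 2 * a ^ 2 * (u ^ 2 * g) +
        24 * K * (2 * A) ^ 2 * (4 * A ^ 2 * a ^ 2) * (u ^ 2 * g) +
        12 * K * (4 * A ^ 2 * a ^ 2) ^ 2 * (u ^ 2 * g) := by
      rw [hR1]; ring
    rw [e4]
    linarith
  -- the main term
  have hqsu : s * u ≤ q := by
    have h3 : (s * u) ^ 2 ≤ q ^ 2 := by
      rw [hq2, hF, mul_pow]
      have : 0 ≤ 4 * A ^ 2 * e * g := by positivity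
      linarith
    exact le_of_sq_le_sq h3 hq.le
  have hqs0 : s0 * u ≤ q := (mul_le_mul_of_nonneg_right hs hupos.le).trans hqsu
  have hcube0 : 0 ≤ q ^ 3 - (s * u) ^ 3 := by
    have := pow_le_pow_left₀ (by positivity : 0 ≤ s * u) hqsu 3
    linarith
  have hcube : q ^ 3 - (s * u) ^ 3 ≤ 3 * q * (4 * A ^ 2 * a ^ 2 * g) := by
    have h3 : (q - s * u) * (q + s * u) = 4 * A ^ 2 * e * g := by
      have : (q - s * u) * (q + s * u) = q ^ 2 - s ^ 2 * u ^ 2 := by ring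
      rw [this, hq2, hF]; ring
    have h4 : (q - s * u) * q ≤ 4 * A ^ 2 * a ^ 2 * g := by
      have h5 : (q - s * u) * q ≤ (q - s * u) * (q + s * u) := by
        apply mul_le_mul_of_nonneg_left _ (sub_nonneg.2 hqsu)
        have : 0 < s * u := by positivity
        linarith
      rw [h3] at h5
      refine h5.trans ?_
      gcongr
    have h6 : q ^ 3 - (s * u) ^ 3 = (q - s * u) * (q ^ 2 + q * (s * u) + (s * u) ^ 2) := by ring
    have h7 : q ^ 2 + q * (s * u) + (s * u) ^ 2 ≤ 3 * q ^ 2 := by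
      have h8 : 0 < s * u := by positivity
      nlinarith
    calc q ^ 3 - (s * u) ^ 3 = (q - s * u) * (q ^ 2 + q * (s * u) + (s * u) ^ 2) := h6
      _ ≤ (q - s * u) * (3 * q ^ 2) := mul_le_mul_of_nonneg_left h7 (sub_nonneg.2 hqsu)
      _ = 3 * q * ((q - s * u) * q) := by ring
      _ ≤ 3 * q * (4 * A ^ 2 * a ^ 2 * g) := mul_le_mul_of_nonneg_left h4 (by positivity)
  have hmain : (L - (s2 + K * s) * u) * (4 * q ^ 3) =
      (T1 - T2 + T3 + T4) - 4 * (s2 + K * s) * u * (q ^ 3 - (s * u) ^ 3) := by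
    have h3 : L * (4 * q ^ 3) = L * (4 * F * q) := by rw [← hq2]; ring
    have h4 : (L - (s2 + K * s) * u) * (4 * q ^ 3) = L * (4 * q ^ 3) -
        4 * (s2 + K * s) * u * q ^ 3 := by ring
    rw [h4, h3, hL]
    ring
  have hM2 : |s2 + K * s| ≤ S2 + 2 * K * A := by
    refine (abs_add_le _ _).trans (add_le_add h2 ?_)
    rw [abs_mul, abs_of_nonneg hK, abs_of_pos hspos]
    nlinarith
  set M2 := S2 + 2 * K * A with hM2e
  have hM20 : 0 ≤ M2 := (abs_nonneg _).trans hM2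
  have hfin : |L - (s2 + K * s) * u| * (4 * q ^ 3) ≤
      R1 * (u ^ 2 * g) + 4 * M2 * u * (3 * q * (4 * A ^ 2 * a ^ 2 * g)) := by
    have h3 : |L - (s2 + K * s) * u| * (4 * q ^ 3) = |(L - (s2 + K * s) * u) * (4 * q ^ 3)| := by
      rw [abs_mul, abs_of_pos (by positivity : 0 < 4 * q ^ 3)]
    rw [h3, hmain]
    refine (abs_sub _ _).trans (add_le_add bR ?_)
    rw [abs_mul, abs_mul, abs_mul, abs_of_pos hupos, abs_of_nonneg hcube0]
    have h4 : |(4 : ℝ)| = 4 := by norm_num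
    rw [h4]
    have h5 : 4 * |s2 + K * s| * u ≤ 4 * M2 * u := by gcongr
    exact mul_le_mul h5 hcube hcube0 (by positivity)
  have hz : u ≤ q / s0 := by
    rw [le_div_iff₀ hs0, mul_comm]
    exact hqs0
  have hgoal : R1 * (u ^ 2 * g) + 4 * M2 * u * (3 * q * (4 * A ^ 2 * a ^ 2 * g)) ≤
      (R1 / (4 * s0 ^ 3) + 3 * M2 * (4 * A ^ 2 * a ^ 2) / s0 ^ 2) * (4 * q ^ 3) := by
    have h3 : (R1 / (4 * s0 ^ 3) + 3 * M2 * (4 * A ^ 2 * a ^ 2) / s0 ^ 2) * (4 * q ^ 3) =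
        R1 * (q / s0) ^ 3 + 12 * M2 * (4 * A ^ 2 * a ^ 2) * q * (q / s0) ^ 2 := by
      field_simp
      ring
    rw [h3]
    have h4 : u ^ 2 * g ≤ (q / s0) ^ 3 := by
      calc u ^ 2 * g ≤ u ^ 2 * u := mul_le_mul_of_nonneg_left hgu (by positivity)
        _ = u ^ 3 := by ring
        _ ≤ (q / s0) ^ 3 := pow_le_pow_left₀ hupos.le hz 3
    have h5 : u * g ≤ (q / s0) ^ 2 := by
      calc u * g ≤ u * u := mul_le_mul_of_nonneg_left hgu hupos.le
        _ = u ^ 2 := by ring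
        _ ≤ (q / s0) ^ 2 := pow_le_pow_left₀ hupos.le hz 2
    have h6 : 4 * M2 * u * (3 * q * (4 * A ^ 2 * a ^ 2 * g)) =
        12 * M2 * (4 * A ^ 2 * a ^ 2) * q * (u * g) := by ring
    rw [h6]
    have h7 : 0 ≤ 12 * M2 * (4 * A ^ 2 * a ^ 2) * q := by positivity
    exact add_le_add (mul_le_mul_of_nonneg_left h4 hR10) (mul_le_mul_of_nonneg_left h5 h7)
  have hq3 : 0 < 4 * q ^ 3 := by positivity
  exact le_of_mul_le_mul_right (hfin.trans hgoal) hq3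

theorem core2 {V D k1 u A K s s1 s2 s0 S1 S2 e e3 a σ F q y Q Q' Fs Ft C2 k : ℝ}
    (hVID : V = Q * D - K * A * u * (1 - Q) - (s2 / s - s1 ^ 2 / s ^ 2) / 2 +
      (a ^ 2 + σ ^ 2) / e ^ 2 - Q' * (Fs ^ 2 + Ft ^ 2) / (2 * F))
    (hD : |D - k1 * u| ≤ C2) (hk1 : |k1| ≤ k) (hu : 1 ≤ u) (hs0 : 0 < s0) (hs : s0 ≤ s)
    (h1 : |s1| ≤ S1) (h2 : |s2| ≤ S2) (he3 : 0 < e3) (he : e3 ≤ e) (ha : 0 < a) (hσ : |σ| ≤ a)
    (hK : 0 ≤ K) (hA : 0 < A)
    (hF : 0 < F) (hq : 0 < q) (hqF : q ^ 2 = F) (hy : y = 2 * q) (hqs : s * u ≤ q)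
    (hQ0 : Q ≤ 1) (hQ1 : 1 - Q ≤ 2 / y) (hQ'0 : 0 ≤ Q') (hQ' : y ^ 2 * Q' ≤ 3)
    (hFs : |Fs| ≤ 21 / 10 * |σ| / e * F) (hFt : |Ft| ≤ 2 * k * F) (hk : 0 ≤ k) :
    |V - k1 * u| ≤ C2 + (k + C2) / s0 + K * A / s0 + (S2 / s0 + S1 ^ 2 / s0 ^ 2) / 2 +
      2 * a ^ 2 / e3 ^ 2 + 3 / 8 * ((21 / 10 * a / e3) ^ 2 + (2 * k) ^ 2) := by
  have hspos : 0 < s := lt_of_lt_of_le hs0 hs
  have hupos : 0 < u := by linarith
  have hepos : 0 < e := lt_of_lt_of_le he3 he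
  have hC2 : 0 ≤ C2 := (abs_nonneg _).trans hD
  have hS1 : 0 ≤ S1 := (abs_nonneg _).trans h1
  have hS2 : 0 ≤ S2 := (abs_nonneg _).trans h2
  have hq1 : 1 - Q ≤ 1 / (s0 * u) := by
    refine hQ1.trans ?_
    rw [hy]
    have h3 : 2 / (2 * q) = 1 / q := by field_simp
    rw [h3]
    apply one_div_le_one_div_of_le (by positivity)
    exact (mul_le_mul_of_nonneg_right hs hupos.le).trans hqs
  have hq0 : 0 ≤ 1 - Q := by linarith
  have t1 : |(1 - Q) * D| ≤ (k + C2) / s0 := by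
    have h3 : |D| ≤ k * u + C2 := by
      have h4 : D = (D - k1 * u) + k1 * u := by ring
      rw [h4]
      refine (abs_add_le _ _).trans ?_
      rw [abs_mul, abs_of_pos hupos]
      have := mul_le_mul_of_nonneg_right hk1 hupos.le
      linarith
    rw [abs_mul, abs_of_nonneg hq0]
    calc (1 - Q) * |D| ≤ 1 / (s0 * u) * (k * u + C2) :=
          mul_le_mul hq1 h3 (abs_nonneg _) (by positivity)
      _ ≤ 1 / (s0 * u) * ((k + C2) * u) := by
          apply mul_le_mul_of_nonneg_left _ (by positivity)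
          nlinarith
      _ = (k + C2) / s0 := by field_simp
  have t2 : |K * A * u * (1 - Q)| ≤ K * A / s0 := by
    rw [abs_of_nonneg (by positivity)]
    calc K * A * u * (1 - Q) ≤ K * A * u * (1 / (s0 * u)) :=
          mul_le_mul_of_nonneg_left hq1 (by positivity)
      _ = K * A / s0 := by field_simp
  have t3 : |(s2 / s - s1 ^ 2 / s ^ 2) / 2| ≤ (S2 / s0 + S1 ^ 2 / s0 ^ 2) / 2 := by
    rw [abs_div, abs_of_pos (by norm_num : (0:ℝ) < 2)]
    apply div_le_div_of_nonneg_right _ (by norm_num)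
    refine (abs_sub _ _).trans (add_le_add ?_ ?_)
    · rw [abs_div, abs_of_pos hspos]
      exact div_le_div₀ hS2 h2 hs0 hs
    · rw [abs_div, abs_pow, abs_of_pos (by positivity : 0 < s ^ 2)]
      exact div_le_div₀ (by positivity) (pow_le_pow_left₀ (abs_nonneg _) h1 2) (by positivity)
        (pow_le_pow_left₀ hs0.le hs 2)
  have hσ2 : σ ^ 2 ≤ a ^ 2 := by
    rw [← sq_abs]
    exact pow_le_pow_left₀ (abs_nonneg _) hσ 2
  have t4 : |(a ^ 2 + σ ^ 2) / e ^ 2| ≤ 2 * a ^ 2 / e3 ^ 2 := by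
    rw [abs_of_nonneg (by positivity)]
    exact div_le_div₀ (by positivity) (by linarith) (by positivity)
      (pow_le_pow_left₀ he3.le he 2)
  have t5 : |Q' * (Fs ^ 2 + Ft ^ 2) / (2 * F)| ≤
      3 / 8 * ((21 / 10 * a / e3) ^ 2 + (2 * k) ^ 2) := by
    rw [abs_of_nonneg (by positivity)]
    have h3 : Q' ≤ 3 / (4 * F) := by
      rw [le_div_iff₀ (by positivity)]
      have h4 : y ^ 2 = 4 * F := by rw [hy, ← hqF]; ring
      rw [h4] at hQ'
      linarith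
    have h5 : Fs ^ 2 ≤ (21 / 10 * a / e3) ^ 2 * F ^ 2 := by
      rw [← sq_abs, ← mul_pow]
      apply pow_le_pow_left₀ (abs_nonneg _)
      refine hFs.trans ?_
      apply mul_le_mul_of_nonneg_right _ hF.le
      exact div_le_div₀ (by positivity) (by linarith) he3 he
    have h6 : Ft ^ 2 ≤ (2 * k) ^ 2 * F ^ 2 := by
      rw [← sq_abs, ← mul_pow]
      exact pow_le_pow_left₀ (abs_nonneg _) hFt 2
    rw [div_le_iff₀ (by positivity)]
    calc Q' * (Fs ^ 2 + Ft ^ 2) ≤ 3 / (4 * F) * ((21 / 10 * a / e3) ^ 2 * F ^ 2 +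
          (2 * k) ^ 2 * F ^ 2) :=
          mul_le_mul h3 (add_le_add h5 h6) (by positivity) (by positivity)
      _ = 3 / 8 * ((21 / 10 * a / e3) ^ 2 + (2 * k) ^ 2) * (2 * F) := by
          field_simp
          ring
  have hV : V - k1 * u = (D - k1 * u) - (1 - Q) * D - K * A * u * (1 - Q) -
      (s2 / s - s1 ^ 2 / s ^ 2) / 2 + (a ^ 2 + σ ^ 2) / e ^ 2 -
      Q' * (Fs ^ 2 + Ft ^ 2) / (2 * F) := by
    rw [hVID]; ring
  rw [hV]
  have a1 := abs_le.1 hD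
  have a2 := abs_le.1 t1
  have a3 := abs_le.1 t2
  have a4 := abs_le.1 t3
  have a5 := abs_le.1 t4
  have a6 := abs_le.1 t5
  rw [abs_le]
  constructor <;> linarith [a1.1, a1.2, a2.1, a2.2, a3.1, a3.2, a4.1, a4.2, a5.1, a5.2, a6.1, a6.2]

theorem kap_nonneg : 0 ≤ kap := by
  unfold kap lam
  apply div_nonneg _ (by positivity)
  apply Real.log_nonneg
  have : (0:ℝ) ≤ Real.sqrt 5 := Real.sqrt_nonneg 5
  linarith

/-- (VAP) -/
theorem vap (hQF : S_QF) (hTEX : S_TEX) (hFB : S_FB) (hVID : S_VID) : S_VAP := by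
  intro a A s hs
  have ha := hs.a_pos
  have hA := hs.A_pos
  have hK := sq_nonneg kap
  have hk0 := kap_nonneg
  -- bounds of the derivatives
  have hsub : Icc (-(39 / 40 * a)) (39 / 40 * a) ⊆ Ioo (-a) a := fun x hx =>
    ⟨by linarith [hx.1], by linarith [hx.2]⟩
  have c1 : ContDiffOn ℝ ∞ (deriv s) (Ioo (-a) a) :=
    hs.smooth.deriv_of_isOpen isOpen_Ioo (by norm_num)
  have c2 : ContDiffOn ℝ ∞ (deriv (deriv s)) (Ioo (-a) a) :=
    c1.deriv_of_isOpen isOpen_Ioo (by norm_num)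
  obtain ⟨S1, hS1⟩ := isCompact_Icc.exists_bound_of_continuousOn (c1.continuousOn.mono hsub)
  obtain ⟨S2, hS2⟩ := isCompact_Icc.exists_bound_of_continuousOn (c2.continuousOn.mono hsub)
  set e3 : ℝ := 79 / 1600 * a ^ 2 with he3
  have he30 : 0 < e3 := by positivity
  set s0 : ℝ := A * Real.sqrt e3 with hs0e
  have hs0 : 0 < s0 := by positivity
  set K : ℝ := kap ^ 2 with hKe
  set C2 : ℝ := ((4 * A ^ 2) * (4 * (2 * A) ^ 2 + 4 * a ^ 2 * (S1 ^ 2 + 2 * A * S2) +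
        8 * (2 * A) * S1 * a) +
        4 * (4 * A ^ 2) ^ 2 * a ^ 2 + 24 * K * (2 * A) ^ 2 * (4 * A ^ 2 * a ^ 2) +
        12 * K * (4 * A ^ 2 * a ^ 2) ^ 2) / (4 * s0 ^ 3) +
      3 * (S2 + 2 * K * A) * (4 * A ^ 2 * a ^ 2) / s0 ^ 2 with hC2
  set k : ℝ := S2 + 3 * K * A + kap with hk
  set C : ℝ := C2 + (k + C2) / s0 + K * A / s0 + (S2 / s0 + S1 ^ 2 / s0 ^ 2) / 2 +
      2 * a ^ 2 / e3 ^ 2 + 3 / 8 * ((21 / 10 * a / e3) ^ 2 + (2 * k) ^ 2) with hC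
  refine ⟨|C| + 1, by positivity, ?_⟩
  intro α α' l hα w hw hre hu
  have hne : α ≠ 0 ∨ α' ≠ 0 ∨ l ≠ 0 := Or.inl hα.ne'
  have hpos : ∀ w ∈ strip a, 0 < Ff a A s α α' l w := fun w hw =>
    (hTEX a A s hs α α' l hne w hw).1
  obtain ⟨hF, hL⟩ := hTEX a A s hs α α' l hne w hw
  obtain ⟨f1, -, -, f4, f5, f6⟩ := hFB a A s hs α α' l w hw
  have hv := hVID a A s hs α α' l hne w hw
  obtain ⟨-, -, -, -, q1, q2, q3, q4, q5, -, -⟩ := hQF
  have hlap := H0_lap hs α α' l hpos hw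
  set σ := w.re with hσe
  set u := uf α w.im with hue
  set g := gf α' l w.im with hge
  set v := vf α' w.im with hve
  set F := Ff a A s α α' l w with hFe
  set q := Real.sqrt F with hqe
  set L := lapC (fun w => Real.sqrt (Ff a A s α α' l w)) w with hLe
  set e := a ^ 2 - σ ^ 2 with hee
  have hσ : |σ| ≤ a := le_of_lt hw
  have hmem : σ ∈ Icc (-(39 / 40 * a)) (39 / 40 * a) := abs_le.1 hre
  have hmem2 : σ ∈ Ioo (-a) a := hsub hmem
  have h1 : |deriv s σ| ≤ S1 := by simpa [Real.norm_eq_abs] using hS1 σ hmem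
  have h2 : |deriv (deriv s) σ| ≤ S2 := by simpa [Real.norm_eq_abs] using hS2 σ hmem
  have hS20 : 0 ≤ S2 := (abs_nonneg _).trans h2
  have hσ2 : σ ^ 2 ≤ (39 / 40 * a) ^ 2 := by
    rw [← sq_abs]
    exact pow_le_pow_left₀ (abs_nonneg _) hre 2
  have he : e3 ≤ e := by
    rw [he3, hee]
    nlinarith
  have he0 : 0 < e := lt_of_lt_of_le he30 he
  have hea : e ≤ a ^ 2 := by
    rw [hee]
    nlinarith [sq_nonneg σ]
  have hsp := hs.pos σ hmem2
  have hs0s : s0 ≤ s σ := by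
    have h3 : s0 ^ 2 ≤ s σ ^ 2 := by
      rw [hs0e, mul_pow, Real.sq_sqrt he30.le]
      refine le_trans ?_ f1
      exact mul_le_mul_of_nonneg_left he (by positivity)
    exact le_of_sq_le_sq h3 hsp.le
  have hs2A : s σ ≤ 2 * A := by
    refine (hs.le_edge σ hmem2).trans ?_
    rw [div_le_iff₀ ha]
    apply mul_le_mul_of_nonneg_left _ (by positivity)
    rw [Real.sqrt_le_left ha.le]
    exact hea
  have hg0 : 0 ≤ g := by
    rw [hge]
    unfold gf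
    positivity
  have hvg : v ^ 2 ≤ g := by
    rw [hge]
    unfold gf
    have := sq_nonneg l
    linarith
  have hu1 : 1 ≤ u := by linarith
  have hq : 0 < q := Real.sqrt_pos.2 hF
  have hq2 : q ^ 2 = F := Real.sq_sqrt hF.le
  have hFeq : F = s σ ^ 2 * u ^ 2 + 4 * A ^ 2 * e * g := rfl
  have hqs : s σ * u ≤ q := by
    have h3 : (s σ * u) ^ 2 ≤ q ^ 2 := by
      rw [hq2, mul_pow]
      exact f4
    exact le_of_sq_le_sq h3 hq.le
  have hcore := core1 (L := L) hA ha hs0 hs0s hs2A h1 h2 hu hg0 hvg he0 hea hσ hK hFeq hq hq2 hL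
  have hD : |(-lapC (H0f a A s α α' l) w) - kone A s σ * u| ≤ C2 := by
    have h3 : (-lapC (H0f a A s α α' l) w) - kone A s σ * u =
        -(L - (deriv (deriv s) σ + K * s σ) * u) := by
      rw [hlap]
      unfold kone
      ring
    rw [h3, abs_neg]
    exact hcore
  have hk1 : |kone A s σ| ≤ k := by
    unfold kone
    rw [abs_neg]
    have h3 := abs_add_le (deriv (deriv s) σ + kap ^ 2 * s σ) (kap ^ 2 * A)
    have h4 := abs_add_le (deriv (deriv s) σ) (kap ^ 2 * s σ)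
    have h5 : |kap ^ 2 * s σ| ≤ K * (2 * A) := by
      rw [abs_of_nonneg (by positivity)]
      exact mul_le_mul_of_nonneg_left hs2A hK
    have h6 : |kap ^ 2 * A| = K * A := abs_of_nonneg (by positivity)
    rw [hk]
    linarith
  have hkap_le : 2 * kap ≤ 2 * k := by
    rw [hk]
    have : 0 ≤ 3 * K * A := by positivity
    linarith
  have hfin := core2 (y := 2 * q) (Q := qf (2 * q)) (Q' := deriv qf (2 * q)) hv hD hk1 hu1 hs0
    hs0s h1 h2 he30 he ha hσ hK hA hF hq hq2 rfl hqs (abs_lt.1 (q1 (2 * q))).2.le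
    (q5 (2 * q) (by positivity)) (q3 (2 * q)) (q4 (2 * q) (by positivity)) f5
    (f6.trans (mul_le_mul_of_nonneg_right hkap_le hF.le)) (by positivity)
  have h7 := le_abs_self C
  exact hfin.trans (by linarith)

end Pool.Agent.Helper74.AB
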