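import Pool.Agent.Helper95.AB.GoalsW

/-! # Project AB, packet HNEG -/

open MeasureTheory Set Filter Topology
open scoped ContDiff

noncomputable section

namespace Pool.Agent.Helper74.AB

open Pool.Agent.Helper24.AB Pool.Agent.Helper95.AB

/-- a function that is continuous on the strip and vanishes off a compact subset is integrable -/
theorem integrableOn_of_support {a : ℝ} {h : ℂ → ℝ} {K : Set ℂ} (hK : IsCompact K)
    (hKs : K ⊆ strip a) (hc : ContinuousOn h (strip a)) (h0 : ∀ w, w ∉ K → h w = 0) :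
    IntegrableOn h (strip a) := by
  have h1 : IntegrableOn h K := (hc.mono hKs).integrableOn_compact hK
  have hm : MeasurableSet (strip a) := by
    have : IsOpen (strip a) :=
      isOpen_lt (f := fun w : ℂ => |w.re|) (g := fun _ => a) Complex.continuous_re.abs
        continuous_const
    exact this.measurableSet
  exact h1.of_forall_diff_eq_zero hm (fun w hw => h0 w hw.2)

theorem strip_isOpen (a : ℝ) : IsOpen (strip a) :=
  isOpen_lt (f := fun w : ℂ => |w.re|) (g := fun _ => a) Complex.continuous_re.abs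
    continuous_const

theorem fderiv_off {φ : ℂ → ℂ} {w : ℂ} (hw : w ∉ tsupport φ) : fderiv ℝ φ w = 0 := by
  have h1 : φ =ᶠ[𝓝 w] fun _ => (0 : ℂ) := notMem_tsupport_iff_eventuallyEq.1 hw
  rw [h1.fderiv_eq]
  simp

theorem dS_contOn {a : ℝ} {Φ : ℂ → ℝ} (hΦ : ContDiffOn ℝ ∞ Φ (strip a)) :
    ContDiffOn ℝ ∞ (dS Φ) (strip a) :=
  ((hΦ.fderiv_of_isOpen (strip_isOpen a) (m := ∞) (by norm_num)).clm_apply contDiffOn_const)

theorem dT_contOn {a : ℝ} {Φ : ℂ → ℝ} (hΦ : ContDiffOn ℝ ∞ Φ (strip a)) :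
    ContDiffOn ℝ ∞ (dT Φ) (strip a) :=
  ((hΦ.fderiv_of_isOpen (strip_isOpen a) (m := ∞) (by norm_num)).clm_apply contDiffOn_const)

theorem lapC_contOn {a : ℝ} {Φ : ℂ → ℝ} (hΦ : ContDiffOn ℝ ∞ Φ (strip a)) :
    ContinuousOn (lapC Φ) (strip a) :=
  ((dS_contOn (dS_contOn hΦ)).add (dT_contOn (dT_contOn hΦ))).continuousOn

/-- the right-hand side of the Bochner identity is integrable -/
theorem gA_integrable {a : ℝ} {Φ : ℂ → ℝ} (hΦ : ContDiffOn ℝ ∞ Φ (strip a)) {φ : ℂ → ℂ}
    (hφ : IsTest a φ) :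
    IntegrableOn (fun w => gA Φ φ w + lapC Φ w * ‖φ w‖ ^ 2) (strip a) := by
  obtain ⟨h1, h2, h3⟩ := hφ
  refine integrableOn_of_support h2 h3 ?_ ?_
  · have c1 : Continuous (dS φ) :=
      (h1.continuous_fderiv (by norm_num)).clm_apply continuous_const
    have c2 : Continuous (dT φ) :=
      (h1.continuous_fderiv (by norm_num)).clm_apply continuous_const
    have c3 : ContinuousOn (fun w => ((dT Φ w : ℝ) : ℂ)) (strip a) :=
      Complex.continuous_ofReal.comp_continuousOn (dT_contOn hΦ).continuousOn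
    have c4 : ContinuousOn (fun w => ((dS Φ w : ℝ) : ℂ)) (strip a) :=
      Complex.continuous_ofReal.comp_continuousOn (dS_contOn hΦ).continuousOn
    have c5 : ContinuousOn φ (strip a) := h1.continuous.continuousOn
    have c6 := lapC_contOn hΦ
    have c7 : ContinuousOn (gA Φ φ) (strip a) := by
      unfold gA
      exact (((c1.continuousOn.add ((continuousOn_const.mul c3).mul c5)).norm).pow 2).add
        (((c2.continuousOn.sub ((continuousOn_const.mul c4).mul c5)).norm).pow 2)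
    exact c7.add (c6.mul (c5.norm.pow 2))
  · intro w hw
    have e1 : φ w = 0 := image_eq_zero_of_notMem_tsupport hw
    have e2 := fderiv_off hw
    simp only [gA, dS, dT, e1, e2]
    simp

theorem gA_nonneg (Φ : ℂ → ℝ) (φ : ℂ → ℂ) (w : ℂ) : 0 ≤ gA Φ φ w := by
  unfold gA
  positivity

/-- pointwise criterion for hypothesis (H) -/
theorem hypH_of_pointwise {a : ℝ} {Φ : ℂ → ℝ} {ψ : ℝ → ℝ} (hΦ : ContDiffOn ℝ ∞ Φ (strip a))
    (hψ : ContDiff ℝ ∞ ψ) (hID : S_ID)
    (h : ∀ w ∈ strip a, deriv ψ w.im ^ 2 ≤ 1 / 64 * lapC Φ w) : HypH a Φ ψ := by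
  intro φ hφ
  rw [hID a Φ hΦ φ hφ]
  have hint := gA_integrable hΦ hφ
  have hψc : Continuous (deriv ψ) := hψ.continuous_deriv (by norm_num)
  have hint2 : IntegrableOn (fun w => deriv ψ w.im ^ 2 * ‖φ w‖ ^ 2) (strip a) := by
    refine integrableOn_of_support hφ.2.1 hφ.2.2 ?_ ?_
    · have c1 : Continuous fun w : ℂ => deriv ψ w.im := hψc.comp Complex.continuous_im
      have c2 : Continuous φ := hφ.1.continuous
      exact ((c1.pow 2).mul (c2.norm.pow 2)).continuousOn
    · intro w hw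
      have e1 : φ w = 0 := image_eq_zero_of_notMem_tsupport hw
      simp [e1]
  have h1 : (∫ w in strip a, deriv ψ w.im ^ 2 * ‖φ w‖ ^ 2) ≤
      ∫ w in strip a, 1 / 64 * (gA Φ φ w + lapC Φ w * ‖φ w‖ ^ 2) := by
    refine setIntegral_mono_on hint2 (hint.const_mul _) (strip_isOpen a).measurableSet ?_
    intro w hw
    have h2 := h w hw
    have h3 := gA_nonneg Φ φ w
    have h4 : 0 ≤ ‖φ w‖ ^ 2 := by positivity
    have h5 := mul_le_mul_of_nonneg_right h2 h4
    linarith
  rw [integral_const_mul] at h1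
  linarith

theorem hneg (hD : S_DERL) : S_HNEG := by
  intro a c C N₁ R K₀ Cl k1 p Φ J ell ha hc hC hcurv hJ hell hell1 hCl hR hN hcond hID
  obtain ⟨-, ⟨us, ud⟩, vs, vd⟩ := hD ell Cl R J hell hell1 hCl hR
  have hΦ := hcurv.smooth J hJ.ne
  have hψ : ContDiff ℝ ∞ (fun t => N₁ * (ell (uF J t ^ 2 / R) + ell (vF J t ^ 2 / R)) + K₀) :=
    (contDiff_const.mul (us.add vs)).add contDiff_const
  have hCl0 : 0 ≤ Cl := by
    have := hCl 0
    simpa using this
  refine hypH_of_pointwise hΦ hψ hID (fun w hw => ?_)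
  have hder : deriv (fun t => N₁ * (ell (uF J t ^ 2 / R) + ell (vF J t ^ 2 / R)) + K₀) w.im =
      N₁ * (deriv (fun t => ell (uF J t ^ 2 / R)) w.im +
        deriv (fun t => ell (vF J t ^ 2 / R)) w.im) := by
    have d1 : DifferentiableAt ℝ (fun t => ell (uF J t ^ 2 / R)) w.im :=
      (us.differentiable (by norm_num)) _
    have d2 : DifferentiableAt ℝ (fun t => ell (vF J t ^ 2 / R)) w.im :=
      (vs.differentiable (by norm_num)) _
    have d3 := ((d1.hasDerivAt.add d2.hasDerivAt).const_mul N₁).add_const K₀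
    exact d3.deriv
  rw [hder]
  obtain ⟨u1, u2⟩ := ud w.im
  obtain ⟨v1, v2⟩ := vd w.im
  have hlap0 := hcurv.nonneg J hJ.ne w hw
  have hneg := hcurv.neg J hJ w hw
  set U := deriv (fun t => ell (uF J t ^ 2 / R)) w.im with hU
  set V := deriv (fun t => ell (vF J t ^ 2 / R)) w.im with hV
  by_cases h1 : uF J w.im ^ 2 < R ∧ vF J w.im ^ 2 < R
  · rw [u2 h1.1, v2 h1.2]
    have : (N₁ * ((0 : ℝ) + 0)) ^ 2 = 0 := by ring
    rw [this]
    positivity
  · have hW : Real.sqrt R ≤ WF J w.im := by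
      have e1 : WF J w.im = 2 + |uF J w.im| + |vF J w.im| + |(J 2 : ℝ)| := rfl
      rw [e1]
      have p1 := abs_nonneg (uF J w.im)
      have p2 := abs_nonneg (vF J w.im)
      have p3 := abs_nonneg (J 2 : ℝ)
      rcases not_and_or.1 h1 with h2 | h2
      · have h3 := Real.sqrt_le_sqrt (not_lt.1 h2)
        rw [Real.sqrt_sq_eq_abs] at h3
        linarith
      · have h3 := Real.sqrt_le_sqrt (not_lt.1 h2)
        rw [Real.sqrt_sq_eq_abs] at h3
        linarith
    have h2 : 256 * (N₁ * Cl) ^ 2 ≤ lapC (Φ J) w := by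
      have h3 : c * Real.sqrt R ≤ c * WF J w.im := mul_le_mul_of_nonneg_left hW hc.le
      linarith
    have h4 : (N₁ * (U + V)) ^ 2 ≤ (N₁ * (2 * Cl)) ^ 2 := by
      rw [← sq_abs (N₁ * (U + V)), abs_mul, abs_of_nonneg hN]
      apply pow_le_pow_left₀ (by positivity)
      apply mul_le_mul_of_nonneg_left _ hN
      have := abs_add_le U V
      linarith
    have h5 : (N₁ * (2 * Cl)) ^ 2 = 4 * (N₁ * Cl) ^ 2 := by ring
    rw [h5] at h4
    linarith

end Pool.Agent.Helper74.AB
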