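import Pool.Agent.Helper10.AB.GoalsF4

/-!
# Project AB (MP_1ef41b_an), module FM, packet CJZ: the contributions of the orbits vanish
-/

set_option autoImplicit false

open MeasureTheory Set Filter Topology
open scoped ContDiff

noncomputable section

namespace Pool.Agent.Helper74.AB.CJZ

open Pool.Agent.Helper24.AB Pool.Agent.Helper10.AB

theorem cell_sub (a : ℝ) : cell a ⊆ strip a := fun _ hw => hw.1

theorem cell_sub_SB (a : ℝ) : cell a ⊆ SB a 7 := by
  intro w hw
  refine ⟨hw.1, ?_⟩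
  have h1 := hw.2.1
  have h2 := hw.2.2
  have h3 := Real.pi_lt_d2
  rw [abs_lt]
  constructor <;> linarith

theorem meas_strip (a : ℝ) : MeasurableSet (strip a) :=
  (isOpen_lt (continuous_abs.comp Complex.continuous_re) continuous_const).measurableSet

theorem meas_cell (a : ℝ) : MeasurableSet (cell a) := by
  have h1 : MeasurableSet {w : ℂ | 0 ≤ w.im} :=
    (isClosed_le continuous_const Complex.continuous_im).measurableSet
  have h2 : MeasurableSet {w : ℂ | w.im < 2 * Real.pi} :=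
    (isOpen_lt Complex.continuous_im continuous_const).measurableSet
  exact (meas_strip a).inter (h1.inter h2)

theorem add_mem (a : ℝ) {w : ℂ} (hw : w ∈ strip a) (k : ℤ) :
    w + k * (2 * Real.pi * Complex.I) ∈ strip a := by
  have : (w + k * (2 * Real.pi * Complex.I)).re = w.re := by simp
  show |(w + k * (2 * Real.pi * Complex.I)).re| < a
  rw [this]
  exact hw

/-- equivariance under all powers -/
theorem eqv_zpow {E : Type} {a : ℝ} {X : (Fin 3 → ℤ) → ℂ → E}
    (hX : ∀ J, ∀ w ∈ strip a, X J (w + 2 * Real.pi * Complex.I) = X (Jn J) w)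
    (JnE : Equiv.Perm (Fin 3 → ℤ)) (hJ : ∀ J, JnE J = Jn J) (k : ℤ) :
    ∀ J, ∀ w ∈ strip a, X ((JnE ^ k) J) w = X J (w + k * (2 * Real.pi * Complex.I)) := by
  induction k using Int.induction_on with
  | zero =>
    intro J w _
    simp
  | succ k ih =>
    intro J w hw
    rw [zpow_add_one, Equiv.Perm.mul_apply, ih (JnE J) w hw, hJ J,
      ← hX J _ (add_mem a hw k)]
    congr 1
    push_cast
    ring
  | pred k ih =>
    intro J w hw
    rw [zpow_sub_one, Equiv.Perm.mul_apply, ih (JnE⁻¹ J) w hw]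
    have h1 : Jn (JnE⁻¹ J) = J := by
      rw [← hJ]
      exact Equiv.apply_symm_apply JnE J
    have h2 := hX (JnE⁻¹ J) _ (add_mem a hw (-(k:ℤ) - 1))
    rw [h1] at h2
    rw [← h2]
    congr 1
    push_cast
    ring

theorem sq_eq (x : ℝ) (z : ℂ) : ‖(Real.exp x : ℂ) * z‖ ^ 2 = (Real.exp x * ‖z‖) ^ 2 := by
  rw [norm_mul, Complex.norm_real, Real.norm_of_nonneg (Real.exp_pos x).le]

theorem zpow_inj (hWW : S_WW) (JnE : Equiv.Perm (Fin 3 → ℤ)) (hJ : ∀ J, JnE J = Jn J)
    (J : Fin 3 → ℤ) (hJJ : J 0 ≠ 0 ∨ J 1 ≠ 0) : Function.Injective (fun k : ℤ => (JnE ^ k) J) := by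
  obtain ⟨_, _, _, _, h5, _, h7, _⟩ := hWW
  have hlam : 1 < lam := by
    unfold lam
    have := Real.sqrt_nonneg 5
    linarith
  have hne : alp J ≠ 0 := (h5 J hJJ).1
  have key : ∀ k : ℤ, ∀ J, alp ((JnE ^ k) J) = lam ^ k * alp J := by
    intro k
    induction k using Int.induction_on with
    | zero => intro J; simp
    | succ k ih =>
      intro J
      rw [zpow_add_one, Equiv.Perm.mul_apply, ih, hJ, (h7 J).1, zpow_add_one₀ (by linarith)]
      ring
    | pred k ih =>
      intro J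
      rw [zpow_sub_one, Equiv.Perm.mul_apply, ih]
      have h1 : Jn (JnE⁻¹ J) = J := by
        rw [← hJ]
        exact Equiv.apply_symm_apply JnE J
      have h2 := (h7 (JnE⁻¹ J)).1
      rw [h1] at h2
      rw [h2, zpow_sub_one₀ (by linarith)]
      have : lam ≠ 0 := by linarith
      field_simp
  intro k l hkl
  have h1 : alp ((JnE ^ k) J) = alp ((JnE ^ l) J) := congrArg alp hkl
  rw [key, key] at h1
  have h2 : lam ^ k = lam ^ l := mul_right_cancel₀ hne h1
  exact zpow_right_injective₀ (by linarith) hlam.ne' h2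

/-- PACKET CJZ. -/
theorem cjz : S_COL → S_SHF → S_NRM → S_PHC → S_FJA → S_FJD → S_WW → S_CJZ := by
  intro hCOL hSHF hNRM hPHC hFJA hFJD hWW
  intro a A δ₀ ρ₀ s p B hD f hf hG hfI g η hg hgE hgO hgC hη hηE hηI hηS JnE hJ c hc
  have ha : 0 < a := hD.prof.a_pos
  have hΦc : ∀ J, ContinuousOn (PhiJ a A s p J) (strip a) := (hPHC a A δ₀ ρ₀ s p B hD).1
  have hEc : ∀ J, ContinuousOn (fun w => (Real.exp (-(PhiJ a A s p J w)) : ℂ)) (strip a) := by
    intro J
    exact Complex.continuous_ofReal.comp_continuousOn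
      (Real.continuous_exp.comp_continuousOn (hΦc J).neg)
  have hgc : ∀ J, ContinuousOn (g J) (strip a) := fun J => (hg.1 J (mem_univ J)).continuousOn
  have hηc : ∀ J, ContinuousOn (η J) (strip a) := fun J => (hη J).continuousOn
  have hcs := cell_sub a
  have hmc := meas_cell a
  have hms := meas_strip a
  -- COL on the cell
  have col := fun J => hCOL a A δ₀ ρ₀ s p B hD f hf hG J (cell a) hmc hcs (g J) (η J) (hgc J) (hηc J)
  have hgI : ∀ J, IntegrableOn (fun w => ‖(Real.exp (-(PhiJ a A s p J w)) : ℂ) * g J w‖ ^ 2)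
      (cell a) := by
    intro J
    obtain ⟨C, hC⟩ := hg.2 0 0 7
    have h1 := (hC J (mem_univ J)).1
    have h2 := h1.mono_set (cell_sub_SB a)
    refine h2.congr_fun ?_ hmc
    intro w _
    simp only [Function.iterate_zero, id_eq]
    exact (sq_eq _ _).symm
  have hηI' : ∀ J, IntegrableOn (fun w => ‖(Real.exp (-(PhiJ a A s p J w)) : ℂ) * η J w‖ ^ 2)
      (cell a) := fun J => (col J).1.1.mp (hηI J)
  have hcJ : ∀ J, c J = ∫ w in cell a, (FJ a A s p f J w -
      (Real.exp (-(PhiJ a A s p J w)) : ℂ) * g J w) *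
        (starRingEnd ℂ) ((Real.exp (-(PhiJ a A s p J w)) : ℂ) * η J w) := by
    intro J
    rw [hc J]
    exact (col J).2 (hgI J) (hηI' J) (hfI J)
  refine ⟨?_, ?_⟩
  · intro J h0 h1
    have hJn : Jn J = J := by
      funext i
      fin_cases i <;> simp [Jn, h0, h1]
    rw [hcJ J]
    refine hgC J h0 h1 (η J) (hη J) (fun w hw => ?_) ?_
    · rw [hηE J w hw, hJn]
    · have hm : AEStronglyMeasurable (fun w => (Real.exp (-(PhiJ a A s p J w)) : ℂ) * η J w)
          (volume.restrict (cell a)) :=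
        (((hEc J).mul (hηc J)).mono hcs).aestronglyMeasurable hmc
      exact (memLp_two_iff_integrable_sq_norm hm).mpr (hηI' J)
  · intro J hJJ
    have hFE : ∀ J, ∀ w ∈ strip a, FJ a A s p f J (w + 2 * Real.pi * Complex.I) =
        FJ a A s p f (Jn J) w := (hFJA a A δ₀ ρ₀ s p B hD f hf hG).2.2.2
    have hΦE : ∀ J, ∀ w ∈ strip a, PhiJ a A s p J (w + 2 * Real.pi * Complex.I) =
        PhiJ a A s p (Jn J) w := fun J w _ => (hNRM a A δ₀ ρ₀ s p B hD).2.1 J w
    have eF := fun k => eqv_zpow hFE JnE hJ k J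
    have eΦ := fun k => eqv_zpow hΦE JnE hJ k J
    have eg := fun k => eqv_zpow hgE JnE hJ k J
    have eη := fun k => eqv_zpow hηE JnE hJ k J
    -- the function `Ψ`
    set Ψ : ℂ → ℂ := fun w => (FJ a A s p f J w - (Real.exp (-(PhiJ a A s p J w)) : ℂ) * g J w) *
        (starRingEnd ℂ) ((Real.exp (-(PhiJ a A s p J w)) : ℂ) * η J w) with hΨ
    have hck : ∀ k : ℤ, c ((JnE ^ k) J) = ∫ w in cell a, Ψ (w + k * (2 * Real.pi * Complex.I)) := by
      intro k
      rw [hcJ]
      refine setIntegral_congr_fun hmc fun w hw => ?_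
      have hw' := hcs hw
      simp only [hΨ]
      rw [eF k w hw', eΦ k w hw', eg k w hw', eη k w hw']
    -- `e^{-Φ}η ∈ L²(strip)`
    have hηm : AEStronglyMeasurable (fun w => (Real.exp (-(PhiJ a A s p J w)) : ℂ) * η J w)
        (muS a) := ((hEc J).mul (hηc J)).aestronglyMeasurable hms
    have hηL : MemLp (fun w => (Real.exp (-(PhiJ a A s p J w)) : ℂ) * η J w) 2 (muS a) := by
      rw [memLp_two_iff_integrable_sq_norm hηm]
      have hk : ∀ k : ℤ, ∀ w ∈ cell a, ‖(Real.exp (-(PhiJ a A s p ((JnE ^ k) J) w)) : ℂ) *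
          η ((JnE ^ k) J) w‖ ^ 2 = ‖(Real.exp (-(PhiJ a A s p J
            (w + k * (2 * Real.pi * Complex.I)))) : ℂ) *
              η J (w + k * (2 * Real.pi * Complex.I))‖ ^ 2 := by
        intro k w hw
        rw [eΦ k w (hcs hw), eη k w (hcs hw)]
      refine (hSHF a ℝ (fun w => ‖(Real.exp (-(PhiJ a A s p J w)) : ℂ) * η J w‖ ^ 2) ha).2 ?_ ?_
      · intro k
        exact (hηI' ((JnE ^ k) J)).congr_fun (hk k) hmc
      · have h1 := hηS.comp_injective (zpow_inj hWW JnE hJ J hJJ)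
        refine h1.congr fun k => ?_
        simp only [Function.comp_apply]
        rw [(col ((JnE ^ k) J)).1.2]
        refine setIntegral_congr_fun hmc fun w hw => ?_
        show _ = _
        rw [Real.norm_of_nonneg (by positivity)]
        exact hk k w hw
    have hFL : MemLp (FJ a A s p f J) 2 (muS a) := (hFJD a A δ₀ ρ₀ s p B hD f hf hG).2 ⟨J, hJJ⟩
    obtain ⟨hgL, hOrt⟩ := hgO J hJJ
    have hΨI : IntegrableOn Ψ (strip a) := by
      have h1 : MemLp (fun w => FJ a A s p f J w - (Real.exp (-(PhiJ a A s p J w)) : ℂ) * g J w) 2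
          (muS a) := hFL.sub hgL
      have h2 : MemLp (fun w => (starRingEnd ℂ) ((Real.exp (-(PhiJ a A s p J w)) : ℂ) * η J w)) 2
          (muS a) := hηL.star
      exact h1.integrable_mul h2
    have h1 := (hSHF a ℂ Ψ ha).1 hΨI
    have h2 : ∫ w in strip a, Ψ w = 0 := hOrt (η J) (hη J) hηL
    rw [h2] at h1
    calc ∑' k : ℤ, c ((JnE ^ k) J) = ∑' k : ℤ, ∫ w in cell a, Ψ (w + k * (2 * Real.pi * Complex.I)) :=
          tsum_congr hck
      _ = 0 := h1.tsum_eq

end Pool.Agent.Helper74.AB.CJZ
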